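import Mathlib
import Pool.Agent.Q283.TE.Fin

/-!
# Every finite family of cubic twists has common twists with finite Mordell-Weil groups and trivial
3-primary Tate-Shafarevich groups

`E_D : y² + D y = x³`, `3`-isogenous to `x³ + y³ = D`. Let `D_1, …, D_n` (`n` arbitrary) be ANY
cube-free numbers prime to `3` such that exactly one prime `q = 2` modulo `3` divides each of them
(with any number of primes `= 1` modulo `3`), for which some class `r = 1, 4, 7` modulo `9` satisfies
`D_i r ≠ ±1` modulo `9` for all `i` (`0 < classes D`). There is no condition on the ranks, on the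
Tate-Shafarevich groups or on the `L`-series of the `E_{D_i}`.

Then there is a squarefree `m`, a product of `2 s` primes `= 1` modulo `9` that do not divide the
`D_i`, where `s` is the number of the primes `= 1` modulo `3` that divide some `D_i`, such that for
a positive proportion of the primes `ℓ` ALL the curves `E_{D_i m ℓ}` have a finite group of rational
points, `Ш[3^∞] = 0`, `L(E, 1) ≠ 0`, and the `3`-part of the formula of Birch and Swinnerton-Dyer.
More exactly: the allowed primes `ℓ` (`ℓ = 1` modulo `3`, `ℓ ∤ D_i m`, `D_i m ℓ ≠ ±1` modulo `9`)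
have density `classes D / 3` among the primes `= 1` modulo `3`, and the proportion of the allowed
primes with these properties tends to the explicit constant `c (D m) > 0`.

The limit is the one of `MP_4a9ea6_nt.PrimeCubicTwists` (helper283); what is new here is the common
twist `m` that makes it positive for every finite family (there it is shown to be positive if no prime
divides three of the `D_i`; in general `c (D)` can vanish). The criterion for one `D` is from the
starting library, Chebotarev's density theorem is the one of `Pool/Agent/W401/Cheb`.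
-/

set_option autoImplicit false

open scoped Classical

namespace Pool.Agent.Results.MP_e23604_nt.CommonCubicTwist

open Pool.Agent.Y703.CT (WD EQ IsL ThreeUnit tamProd)
open Pool.Agent.TH841.SH.D (Sha)
open Pool.Agent.W97.MT (IsGloballyMinimal)
open Pool.Agent.Y700 (Omega)

/-- `D` is prime to `3` and cube-free, and exactly one prime `q = 2` modulo `3` divides it. -/
def Base (D : ℕ) : Prop :=
  D ≠ 0 ∧ ¬ 3 ∣ D ∧ (∀ p : ℕ, p.Prime → ¬ p ^ 3 ∣ D) ∧
    ∃ q : ℕ, q.Prime ∧ q % 3 = 2 ∧ q ∣ D ∧ ∀ p : ℕ, p.Prime → p ∣ D → p ≠ q → p % 3 = 1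

/-- The conclusion for `E_D : y² + D y = x³` (`WD D`, over `ℚ` it is `EQ (WD D)`): the equation is
globally minimal, `E_D(ℚ)` is finite, `Ш(E_D/ℚ)` has no element of order `3`, and there is an entire
function `f` which is the `L`-series for `Re s > 3/2` (`IsL`), with `f 1 ≠ 0` and
`f 1 = u Ω ∏ c_p / |E_D(ℚ)_tors|²` with a unit `u` at `3`. -/
def Conclusion (D : ℕ) : Prop :=
  IsGloballyMinimal (WD D) ∧
  (Finite (EQ (WD D)).toAffine.Point ∧
    ∀ (n : ℕ) (x : Sha (EQ (WD D))), 3 ^ n • x = 0 → x = 0) ∧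
  ∃ f : ℂ → ℂ, IsL (WD D) f ∧ f 1 ≠ 0 ∧ ∃ u : ℂ,
    f 1 = u * (((Omega (WD D) : ℝ) : ℂ) * (tamProd (WD D) : ℂ) /
      (Nat.card (AddCommGroup.torsion (EQ (WD D)).toAffine.Point) : ℂ) ^ 2) ∧ ThreeUnit u

/-- The number of the primes `ℓ = 1` modulo `3` up to `X` with the property `T`. -/
noncomputable def count (T : ℕ → Prop) (X : ℕ) : ℕ :=
  ((Finset.range (X + 1)).filter fun l => (l.Prime ∧ l % 3 = 1) ∧ T l).card

/-- The allowed primes. -/
def Allowed {n : ℕ} (D : Fin n → ℕ) (l : ℕ) : Prop :=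
  ∀ i, ¬ l ∣ D i ∧ (D i * l) % 9 ≠ 1 ∧ (D i * l) % 9 ≠ 8

/-- The allowed primes for which the conclusion holds for all the `D_i ℓ`. -/
def Good {n : ℕ} (D : Fin n → ℕ) (l : ℕ) : Prop :=
  ∀ i, ¬ l ∣ D i ∧ (D i * l) % 9 ≠ 1 ∧ (D i * l) % 9 ≠ 8 ∧ Conclusion (D i * l)

/-- The number of the classes `r = 1, 4, 7` with `D_i r ≠ ±1` modulo `9` for all `i`. -/
def classes {n : ℕ} (D : Fin n → ℕ) : ℕ :=
  (({1, 4, 7} : Finset ℕ).filter fun r => ∀ i, (D i * r) % 9 ≠ 1 ∧ (D i * r) % 9 ≠ 8).card

/-- A primitive cube root of unity modulo `p`. -/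
noncomputable def root (p : ℕ) : ZMod p :=
  if h : ∃ g : ZMod p, g ^ 2 + g + 1 = 0 then h.choose else 0

/-- The cubic logarithm modulo a prime `p = 1` modulo `3`: `n ^ ((p - 1) / 3) = root p ^ log p n`. -/
noncomputable def log (p n : ℕ) : ZMod 3 :=
  if h : ∃ c : ZMod 3, (n : ZMod p) ^ ((p - 1) / 3) = root p ^ c.val then h.choose else 0

/-- The linear system of `D`, with `a` on the diagonal and bordered by `b`, has only the solution
zero. -/
def Nonsingular (D : ℕ) (a b : ℕ → ZMod 3) : Prop :=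
  ∀ g : ℕ → ZMod 3,
    (∀ p ∈ D.primeFactors, p % 3 = 1 →
      ∑ r ∈ D.primeFactors, (D.factorization r : ZMod 3) * log p r * (g r - g p) = a p * g p) →
    ∑ r ∈ D.primeFactors, (D.factorization r : ZMod 3) * b r * g r = 0 →
    ∀ p ∈ D.primeFactors, g p = 0

/-- All the prime factors of the `D_i`. -/
def primes {n : ℕ} (D : Fin n → ℕ) : Finset ℕ := Finset.univ.biUnion fun i => (D i).primeFactors

/-- The prime factors `= 1` modulo `3` of the `D_i`. -/
def primes1 {n : ℕ} (D : Fin n → ℕ) : Finset ℕ := (primes D).filter fun p => p % 3 = 1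

/-- Extension of a function on a finite set by zero. -/
def ext (S : Finset ℕ) (u : S → ZMod 3) (q : ℕ) : ZMod 3 := if h : q ∈ S then u ⟨q, h⟩ else 0

/-- The proportion of the pairs `(a, b)` for which all the systems are nonsingular. -/
noncomputable def c {n : ℕ} (D : Fin n → ℕ) : ℝ :=
  (Nat.card {y : (primes1 D → ZMod 3) × (primes D → ZMod 3) //
    ∀ i, Nonsingular (D i) (ext (primes1 D) y.1) (ext (primes D) y.2)} : ℝ) /
      3 ^ ((primes1 D).card + (primes D).card)

theorem base_iff {D : ℕ} : Base D ↔ Q283.TQ.Bs D :=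
  ⟨fun h => ⟨⟨h.1, h.2.1, h.2.2.1⟩, h.2.2.2⟩, fun h => ⟨h.1.1, h.1.2.1, h.1.2.2, h.2⟩⟩

theorem result (n : ℕ) (hn : 1 ≤ n) (D : Fin n → ℕ) (hD : ∀ i, Base (D i))
    (hcl : 0 < classes D) :
    ∃ m : ℕ, Squarefree m ∧ m.primeFactors.card = 2 * (primes1 D).card ∧
      (∀ p ∈ m.primeFactors, p % 9 = 1 ∧ ∀ i, ¬ p ∣ D i) ∧ (∀ i, Base (D i * m)) ∧
      Filter.Tendsto (fun X : ℕ => (count (Allowed fun i => D i * m) X : ℝ) /
        (count (fun _ => True) X : ℝ)) Filter.atTop (nhds ((classes D : ℝ) / 3)) ∧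
      Filter.Tendsto (fun X : ℕ => (count (Good fun i => D i * m) X : ℝ) /
        (count (Allowed fun i => D i * m) X : ℝ)) Filter.atTop (nhds (c fun i => D i * m)) ∧
      0 < c (fun i => D i * m) := by
  have hB : ∀ i, Q283.TQ.Bs (D i) := fun i => base_iff.1 (hD i)
  obtain ⟨m, h1, h9, h2, h3, h4, h5⟩ := Q283.TE.common D hB (by omega)
  set D' : Fin n → ℕ := fun i => D i * m with hD'
  have hc : Q283.TQ.cQ D' = c D' := (Q283.TQ.cEl_eq D').symm
  have hcl' : Nat.card {e // Q283.TQ.okQ D' e} = classes D := by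
    rw [Q283.TQ.clsN_eq D', hD', Q283.TE.clsN_mul D h9]
    rfl
  obtain ⟨g1, g2, -⟩ := Q283.TQ.main_Q D' h4
  have hg : ∀ X : ℕ, Q283.TQ.CN (Q283.TQ.GoodQ D') X = count (Good D') X := by
    intro X
    unfold Q283.TQ.CN count
    congr 1
    refine Finset.filter_congr fun l _ => ?_
    refine and_congr_right fun hl => ?_
    exact Q283.TQ.good_iff D' h4 hl.1 hl.2
  rw [hcl'] at g1 g2
  rw [hc] at g2 h5
  refine ⟨m, h1, h2, h3, fun i => base_iff.2 (h4 i), g1, ?_, h5⟩
  have h6 := g2 hcl
  simp only [hg] at h6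
  exact h6

end Pool.Agent.Results.MP_e23604_nt.CommonCubicTwist
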