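import Pool.Agent.Q44.JQ.X.Facts

/-!
# The exact joint law of the 2-Selmer groups of all quadratic twists of several elliptic curves

Let `E_1, …, E_n` be elliptic curves `y ^ 2 = (x - a k 0) (x - a k 1) (x - a k 2)` over `ℚ` with
different integers `a k i` of sum 0 (every elliptic curve over `ℚ` with full rational 2-torsion has such an
equation). We assume

* that no product `(a k i - a k j) (a k i - a k l)` with different `i, j, l` is a square: `E_k` has no
  rational cyclic subgroup of order 4;
* that for `k ≠ l` the modules `E_k[4]` and `E_l[4]` are not isomorphic: there is no bijection `σ` of the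
  roots such that all the products `(a k i - a k j) (a l (σ i) - a l (σ j))`, `i ≠ j`, are squares.

Let `E_{k,D}` be the quadratic twist of `E_k` by the squarefree integer `D`, with the roots `D a k i`. (A
twist `E_{k,m}` of a member may be another member of the family, so that the theorem is also about the
twists by `D m` for several squarefree `m` simultaneously: for `m ≠ 1` the modules `E_k[4]` and `E_{k,m}[4]`
are isomorphic only if `m = -1` and `-(a k i - a k j) (a k i - a k l)` is a square for some different
`i, j, l`.)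

Put `#Sel_2(E_{k,D}) = 2 ^ (2 + r_k(D))`; then `2 ^ rank #Ш[2] = 2 ^ r_k(D)`, so that `r_k(D)` is the sum
of the rank of `E_{k,D}(ℚ)` and of the dimension of `Ш(E_{k,D})[2]`.

Let `S` be a finite set of primes which contains 2 and the prime divisors of the differences
`a k i - a k j`. The class of `D₀` is the set of the squarefree integers `D` with the sign of `D₀` and with
the class of `D₀` in `ℚ_l ^ * / ℚ_l ^ (* 2)` for `l` in `S`; there are finitely many classes, each of
positive density. For all `D` of the class and all `k` the numbers `r_k(D)` and `r_k(D₀)` have the same parity.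
Let `β = ∏_{i ≥ 0} (1 - 2 ^ (- 2 i - 1)) = 0.4194...` and let `p` be the law

`p(e) = (β / 2) 2 ^ e / ((2 - 1) (2 ^ 2 - 1) ⋯ (2 ^ e - 1))`

of Heath-Brown and of Poonen and Rains. The theorem: for the `D` of the class in the natural order the
vector `(r_1(D), …, r_n(D))` has a limit law; it is the law of a vector of *independent* random
variables, the `k`-th with the law `p` conditioned by the parity of `r_k(D₀)`. The frequency of *every* set
`𝒜` of vectors converges to its probability.

For instance, if the `r_k(D₀)` are even then exactly for the proportion `β ^ n` of the class all the curves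
`E_{k,D}` have rank 0 and `Ш(E_{k,D})[2 ^ ∞] = 0`; if for a set `J` of indices the parities are odd
then exactly for the proportion `(2 p(1)) ^ #J β ^ (n - #J)`, `2 p(1) = 0.8388...`, we have rank 0 and
`Ш[2 ^ ∞] = 0` outside `J` and rank `+` dim `Ш[2]` equal to 1 in `J`; and for arbitrary given numbers `e_k`
of the right parities the proportion with `rank + dim Ш[2] = e_k` for all `k` is positive.

The proof: the 2-Selmer group of `E_{k,D}` is the space of the solutions of a system of linear equations over
the field with two elements; the coefficients are quadratic residue symbols of the prime factors of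
`D` and of the elements of `S`, and the local conditions at `S` are maximal isotropic subspaces. All mixed
moments of the orders of these spaces for several `k` are computed: the limit is a sum over the
invariant Lagrangian subspaces, and since the modules `E_k[4]` are different the operators of the symbols
generate the product of the matrix algebras `End(E_k[2])`, so that only the subspaces which are sums
contribute. There is no condition on the number of the prime factors of `D`.
-/

set_option autoImplicit false
set_option linter.all false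

namespace Pool.Agent.Results.MP_e23604_nt.JointSelmerLaw

open Filter Topology
open Pool.Agent.Y667.SX (Sel2H)
open Pool.Agent.TH841.SH.D (Sha)
open scoped Classical

/-- The curve `y ^ 2 = (x - a 0) (x - a 1) (x - a 2)`, for `a 0 + a 1 + a 2 = 0`. -/
def curve (a : Fin 3 → ℤ) : WeierstrassCurve ℚ :=
  ⟨0, 0, 0, ((a 0 * a 1 + a 0 * a 2 + a 1 * a 2 : ℤ) : ℚ), ((-(a 0 * a 1 * a 2) : ℤ) : ℚ)⟩

/-- The roots `D a i` of the quadratic twist by `D`. -/
def twist (D : ℤ) (a : Fin 3 → ℤ) : Fin 3 → ℤ := fun i => D * a i

/-- The product of the differences of one root with the two others is not a square: the curve has no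
rational cyclic subgroup of order 4. -/
def NoCyclicFour (a : Fin 3 → ℤ) : Prop :=
  ∀ i j l, i ≠ j → i ≠ l → j ≠ l → ∀ s : ℤ, (a i - a j) * (a i - a l) ≠ s ^ 2

/-- The differences of the roots are equal modulo squares for some bijection of the roots: the modules of
the points of order dividing 4 are isomorphic. -/
def Matched (a b : Fin 3 → ℤ) : Prop :=
  ∃ σ : Equiv.Perm (Fin 3), ∀ i j, i ≠ j → ∃ s : ℤ, (a i - a j) * (b (σ i) - b (σ j)) = s ^ 2

/-- The number `r` in `#Sel_2 = 2 ^ (2 + r)`. -/
noncomputable def selmerRank (W : WeierstrassCurve ℚ) : ℕ := Nat.log 2 (Nat.card (Sel2H W)) - 2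

/-- The squarefree integers `D` with `|D| ≤ X`, with the sign of `D₀` and with the class of `D₀` modulo
squares in `ℚ_l` for the primes `l` in `S`. -/
def Class (S : Finset ℕ) (D₀ : ℤ) (X : ℕ) : Set ℤ :=
  {D | |D| ≤ X ∧ Squarefree D ∧ 0 < D * D₀ ∧
    ∀ (l : ℕ) [Fact l.Prime], l ∈ S → IsSquare ((D * D₀ : ℤ) : ℚ_[l])}

/-- The infinite product of the numbers `1 - 2 ^ (- 2 i - 1)`, `i ≥ 0`. -/
noncomputable def beta : ℝ := ∏' i : ℕ, (1 - (1 / 2 : ℝ) ^ (2 * i + 1))

/-- The probability of `e` in the law `p`. -/
noncomputable def law (e : ℕ) : ℝ :=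
  beta / 2 * (2 ^ e / ∏ i ∈ Finset.range e, ((2 : ℝ) ^ (i + 1) - 1))

/-- The probability of `e` in the law `p` conditioned by the parity `c`. -/
noncomputable def parityLaw (c : ZMod 2) (e : ℕ) : ℝ := if (e : ZMod 2) = c then 2 * law e else 0

theorem law_eq : law = Pool.Agent.Q269.SL.law2 := by
  funext e
  rw [Pool.Agent.Q269.SL.law2_eq]
  rfl

theorem parity_eq (c : ZMod 2) (e : ℕ) : parityLaw c e = Q44.JQ.lawc c e := by
  unfold parityLaw Q44.JQ.lawc
  rw [law_eq]

theorem result (κ : Type) [Fintype κ] (a : κ → Fin 3 → ℤ) (ha : ∀ k, Function.Injective (a k))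
    (h0 : ∀ k, a k 0 + a k 1 + a k 2 = 0) (h4 : ∀ k, NoCyclicFour (a k))
    (hne : ∀ k l, k ≠ l → ¬ Matched (a k) (a l))
    (S : Finset ℕ) (hS : ∀ l ∈ S, l.Prime) (h2 : 2 ∈ S)
    (hbad : ∀ k i j, i ≠ j → ∀ l : ℕ, l.Prime → (l : ℤ) ∣ a k i - a k j → l ∈ S) :
    (∀ D : ℤ, Squarefree D → ∀ k, ∀ W : WeierstrassCurve ℚ, W = curve (twist D (a k)) →
      Finite (Sel2H W) ∧ Nat.card (Sel2H W) = 2 ^ (2 + selmerRank W) ∧
      Finite {x : Sha W // x + x = 0} ∧
      2 ^ Module.finrank ℤ W.toAffine.Point * Nat.card {x : Sha W // x + x = 0} =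
        2 ^ selmerRank W) ∧
    HasSum law 1 ∧ (∀ c, HasSum (parityLaw c) 1) ∧
    ∀ D₀ : ℤ, Squarefree D₀ →
      (∀ X, ∀ D ∈ Class S D₀ X, ∀ k, (selmerRank (curve (twist D (a k))) : ZMod 2) =
        selmerRank (curve (twist D₀ (a k)))) ∧
      (∃ c : ℝ, 0 < c ∧ Tendsto (fun X : ℕ => ((Class S D₀ X).ncard : ℝ) / X) atTop (𝓝 c)) ∧
      ∀ 𝒜 : Set (κ → ℕ),
        Tendsto (fun X : ℕ =>
          (({D ∈ Class S D₀ X | (fun k => selmerRank (curve (twist D (a k)))) ∈ 𝒜}).ncard : ℝ) /
            ((Class S D₀ X).ncard : ℝ)) atTop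
          (𝓝 (∑' e : κ → ℕ, if e ∈ 𝒜 then
            ∏ k, parityLaw (selmerRank (curve (twist D₀ (a k)))) (e k) else 0)) := by
  let E : Q44.JQ.X.Ey κ := ⟨a, ha, h0, h4, fun k l hkl σ => by
    have h := hne k l hkl
    unfold Matched at h
    push Not at h
    exact h σ, S, ⟨hS, h2⟩, hbad⟩
  have hO := E.out Q44.JQ.X.factsY
  have hc : ∀ b : Fin 3 → ℤ, curve b = Q44.JQ.X.cv b := fun _ => rfl
  have hr : ∀ W, selmerRank W = Q44.JQ.X.sr W := fun _ => rfl
  simp only [parity_eq, law_eq]
  refine ⟨?_, Pool.Agent.Q269.SL.hasSum_law, fun c => ?_, fun D₀ hD₀ => ?_⟩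
  · rintro D hD k W rfl
    exact hO.1 D hD k
  · rw [show parityLaw c = fun e => Q44.JQ.lawc c e from funext (parity_eq c)]
    exact Q44.JQ.M.hasSum_lawc c
  · obtain ⟨h5, h6, h7⟩ := hO.2 D₀ hD₀ (fun D => Squarefree D ∧ E.Cond D₀ D) fun _ => Iff.rfl
    refine ⟨fun X D hD k => ?_, h6, fun 𝒜 => ?_⟩
    · exact h5 D ⟨hD.2.1, hD.2.2⟩ k
    · exact h7 𝒜

end Pool.Agent.Results.MP_e23604_nt.JointSelmerLaw
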