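import Pool.Agent.Q44.BP.Jo
import Pool.Agent.Q44.BP.Fam

/-!
# The joint law of the Selmer groups and of the trivial Tate-Shafarevich groups of all the quadratic twists
# of several elliptic curves

Let `E_k : y² = x³ + a_k x² + b_k x`, `k = 1, …, M`, where the integers `b_k` are not squares, the numbers
`b_k (a_k² - 4 b_k)` are squares different from `0`, and the products `b_k b_l`, `k ≠ l`, are not squares. These
are elliptic curves with exactly one rational point of order two which have a cyclic isogeny of degree four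
over `ℚ(E_k[2])` but not over `ℚ`, the fields `ℚ(E_k[2])` being different. Let `E_{k,D}` be the twist of
`E_k` by `D`, for *all* squarefree integers `D`, and let the local class of `D₀` consist of the squarefree
`D` which have the sign of `D₀` and the square class of `D₀` in `ℚ_p` for all the primes `p` which divide
`2 ∏ b_k (a_k² - 4 b_k)`.

**The theorem.** Every local class has positive lower density. Choose for every `k` one of the two
isogenies of degree two between `E_k` and its quotient. Let `J` be a set of indices `k` such that the two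
local constants of `E_{k,D₀}` are `1`, let `A` be a subset of `J` and let `r_k`, `k ∉ J`, be natural numbers. In
the local class of `D₀` the proportion of the `D` such that

* for `k ∈ J` the curve `E_{k,D}` has rank `0` and no element of `2`-power order in its Tate-Shafarevich
  group if and only if `k ∈ A`,
* for `k ∉ J` the Selmer group of the chosen isogeny of `E_{k,D}` has `2 ^ (r_k + 1)` elements

is exactly `κ ^ #A · (1 - κ) ^ #(J ∖ A) · ∏_{k ∉ J} law τ_k r_k`, with `κ = ∏_{i ≥ 1} (1 - 1 / 2 ^ i) = 0.288…`. So all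
these events are independent. Moreover, for a positive proportion of the `D` of the local class, `E_{k,D}` has
rank `0` and no element of `2`-power order in its Tate-Shafarevich group for `k ∈ J`, and
`2 ^ rank · # Ш[2] ≥ 2 ^ T_k` for `k ∉ J`, whatever the numbers `T_k` are.

For any different primes `β_k = s_k² + 4 r_k²`, `β_k = 5` modulo `8`, the curves with `a_k = β_k`,
`b_k = β_k r_k²` satisfy the hypotheses and have a common local class in which `J` can be the set of all
the indices: there the `M` events are independent, each of probability `κ`.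
-/

set_option autoImplicit false

open Finset Filter

namespace Pool.Agent.Results.MP_e23604_nt.JointTwistLaw

/-- the curve `y² = x³ + A x² + B x` over `ℚ` -/
def E (A B : ℤ) : WeierstrassCurve ℚ :=
  { a₁ := 0, a₂ := (A : ℚ), a₃ := 0, a₄ := (B : ℚ), a₆ := 0 }

/-- the rank of the group of rational points of `y² = x³ + A x² + B x` -/
noncomputable def rank (A B : ℤ) : ℕ := Module.finrank ℤ (E A B).toAffine.Point

open Classical in
/-- the `2`-torsion of the Tate-Shafarevich group of `y² = x³ + A x² + B x` -/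
def ShaTwo (A B : ℤ) : Type := {x : Pool.Agent.W262.SH.Sha (E A B) // x + x = 0}

open Classical in
/-- the rank of `y² = x³ + A x² + B x` is `0` and its Tate-Shafarevich group contains no element of
`2`-power order different from `0` -/
def Trivial (A B : ℤ) : Prop :=
  rank A B = 0 ∧ ∀ (x : Pool.Agent.W262.SH.Sha (E A B)) (n : ℕ), 2 ^ n • x = 0 → x = 0

/-- `z` is, up to squares, the abscissa of a point over `F` of `y² = x³ + A x² + B x` -/
def Loc (F : Type) [Field F] (A B z : ℤ) : Prop :=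
  ∃ x y r : F, x ≠ 0 ∧ y ^ 2 = x ^ 3 + (A : F) * x ^ 2 + (B : F) * x ∧ x = (z : F) * r ^ 2

/-- the Selmer group of the isogeny of degree two onto `y² = x³ + A x² + B x`, a subgroup of `ℚ*/ℚ*²`
which is described by squarefree integers -/
def Sel (A B : ℤ) : Set ℤ :=
  {z | Squarefree z ∧ (∀ (p : ℕ) [Fact p.Prime], Loc ℚ_[p] A B z) ∧ Loc ℝ A B z}

/-- the Selmer group of the isogeny onto `E_D : y² = x³ + a D x² + b D² x`, or (`s = false`) onto the
isogenous curve `y² = x³ - 2 a D x² + (a² - 4 b) D² x` -/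
def TwistSel (s : Bool) (a b D : ℤ) : Set ℤ :=
  if s then Sel (a * D) (b * D ^ 2) else Sel (-2 * a * D) ((a ^ 2 - 4 * b) * D ^ 2)

/-- the number `2 ^ rank · # Ш[2]` of the curve `E_D` -/
noncomputable def size (a b D : ℤ) : ℕ :=
  2 ^ rank (a * D) (b * D ^ 2) * Nat.card (ShaTwo (a * D) (b * D ^ 2))

/-- the families of curves -/
def Family {M : ℕ} (a b : Fin M → ℤ) : Prop :=
  (∀ k, ¬ IsSquare (b k) ∧ a k ^ 2 - 4 * b k ≠ 0 ∧ IsSquare (b k * (a k ^ 2 - 4 * b k))) ∧
    ∀ k l, k ≠ l → ¬ IsSquare (b k * b l)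

/-- the group of the square classes of a field -/
abbrev SquareClasses (K : Type) [Field K] : Type := Kˣ ⧸ (powMonoidHom 2 : Kˣ →* Kˣ).range

/-- the square classes of the abscissae of the points over `K` of `y² = x³ + A x² + B x` -/
def image (K : Type) [Field K] (A B : ℤ) : Set (SquareClasses K) :=
  {c | ∃ (x : Kˣ) (y : K), y ^ 2 = (x : K) ^ 3 + (A : K) * (x : K) ^ 2 + (B : K) * (x : K) ∧
    c = QuotientGroup.mk x}

open Classical in
/-- the number of these classes over `ℚ_p` -/
noncomputable def imageCard (A B : ℤ) (p : ℕ) : ℕ :=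
  if h : p.Prime then (haveI : Fact p.Prime := ⟨h⟩; Nat.card (image ℚ_[p] A B)) else 1

/-- the number `2 ∏ b_k (a_k² - 4 b_k)` -/
def modulus {M : ℕ} (a b : Fin M → ℤ) : ℕ := (2 * ∏ k, (b k * (a k ^ 2 - 4 * b k))).natAbs

/-- the product over the primes of `S` and the infinite place of `1/2` times the number of the classes -/
noncomputable def ratio (S : Finset ℕ) (A B : ℤ) : ℝ :=
  (((∏ p ∈ S, imageCard A B p) * Nat.card (image ℝ A B) : ℕ) : ℝ) / 2 ^ (S.card + 1)

/-- the local constant of the twist by `D` of the curve with the index `k`, or (`s = false`) of the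
isogenous curve -/
noncomputable def τ {M : ℕ} (a b : Fin M → ℤ) (s : Bool) (k : Fin M) (D : ℤ) : ℝ :=
  if s then ratio (modulus a b).primeFactors (a k * D) (b k * D ^ 2)
  else ratio (modulus a b).primeFactors (-2 * a k * D) ((a k ^ 2 - 4 * b k) * D ^ 2)

/-- `D` and `D₀` have the same sign and the same square classes at the primes which divide the modulus -/
def Same (n : ℕ) (D₀ D : ℤ) : Prop := 0 < D₀ * D ∧
  ∀ (p : ℕ) [Fact p.Prime], p ∣ n → IsSquare ((D₀ * D : ℤ) : ℚ_[p])

open Classical in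
/-- the number of the squarefree `D` with `|D| ≤ X` in the local class of `D₀` with the property `P` -/
noncomputable def count (n : ℕ) (D₀ : ℤ) (P : ℤ → Prop) (X : ℕ) : ℕ :=
  ((Icc (-(X : ℤ)) X).filter fun D => Squarefree D ∧ Same n D₀ D ∧ P D).card

/-- the `D` with the property `P` have the proportion `c` in the local class of `D₀` -/
def Proportion (n : ℕ) (D₀ : ℤ) (P : ℤ → Prop) (c : ℝ) : Prop :=
  Tendsto (fun X : ℕ => (count n D₀ P X : ℝ) / (count n D₀ (fun _ => True) X : ℝ)) atTop (nhds c)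

/-- the law of the dimensions -/
noncomputable def law (t : ℝ) (r : ℕ) : ℝ :=
  t ^ r / (∏ i ∈ range r, ((2 : ℝ) ^ r - 2 ^ i)) * ∏' i : ℕ, (1 - t / 2 ^ (r + i + 1))

/-- the number `(1 - 1/2) (1 - 1/4) (1 - 1/8) ⋯` -/
noncomputable def κ : ℝ := ∏' i : ℕ, (1 - (1 : ℝ) / 2 ^ (i + 1))

/-- the curves of the indices of `J` are balanced in the local class of `D₀` -/
def Balanced {M : ℕ} (a b : Fin M → ℤ) (D₀ : ℤ) (J : Finset (Fin M)) : Prop :=
  ∀ k ∈ J, ∀ s, τ a b s k D₀ = 1

/-- the local class of `D₀` has positive lower density, and the local constants give laws -/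
def Base {M : ℕ} (a b : Fin M → ℤ) (D₀ : ℤ) : Prop :=
  (∃ η : ℝ, 0 < η ∧ ∀ᶠ X : ℕ in atTop,
    η * (X : ℝ) ≤ (count (modulus a b) D₀ (fun _ => True) X : ℝ)) ∧
  ∀ s k, HasSum (law (τ a b s k D₀)) 1

/-- the joint law -/
def Law {M : ℕ} (a b : Fin M → ℤ) (D₀ : ℤ) (J : Finset (Fin M)) : Prop :=
  ∀ A ⊆ J, ∀ (s : Fin M → Bool) (r : Fin M → ℕ), Proportion (modulus a b) D₀
    (fun D => (∀ k ∈ J, (Trivial (a k * D) (b k * D ^ 2) ↔ k ∈ A)) ∧
      ∀ k, k ∉ J → (TwistSel (s k) (a k) (b k) D).ncard = 2 ^ (r k + 1))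
    (κ ^ A.card * (1 - κ) ^ (J \ A).card * ∏ k ∈ univ \ J, law (τ a b (s k) k D₀) (r k))

/-- trivial groups for the curves of `J` and large groups for the other curves -/
def Mixed {M : ℕ} (a b : Fin M → ℤ) (D₀ : ℤ) (J : Finset (Fin M)) : Prop :=
  ∀ T : Fin M → ℕ, ∃ η : ℝ, 0 < η ∧ ∀ᶠ X : ℕ in atTop,
    η * (X : ℝ) ≤ (count (modulus a b) D₀ (fun D =>
      (∀ k ∈ J, Trivial (a k * D) (b k * D ^ 2)) ∧ ∀ k, k ∉ J → 2 ^ T k ≤ size (a k) (b k) D) X : ℝ)

/-- the curve `y² = x³ + β x² + β r² x` of a prime `β = s² + 4 r²`, `β = 5` modulo `8` -/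
def Special (a b : ℤ) : Prop := ∃ (β : ℕ) (r s : ℤ), β.Prime ∧ β % 8 = 5 ∧
  (β : ℤ) = s ^ 2 + 4 * r ^ 2 ∧ a = β ∧ b = β * r ^ 2

/-- the families of the special curves have a common balanced class -/
def Examples : Prop := (∀ β : ℕ, β.Prime → β % 8 = 5 → ∃ b : ℤ, Special β b) ∧
  ∀ (M : ℕ) (a b : Fin M → ℤ), Function.Injective a → (∀ k, Special (a k) (b k)) →
    Family a b ∧ ∃ D₀ : ℤ, Squarefree D₀ ∧ Balanced a b D₀ univ

/-! ### The proof -/

open scoped Classical

/-- the data -/
def cs {M : ℕ} {a b : Fin M → ℤ} (h : Family a b) : Q44.BP.Cs (Fin M) where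
  a := a
  b := b
  n := modulus a b
  hb := fun k => (h.1 k).1
  hc := fun k => (h.1 k).2.1
  hs := fun k => (h.1 k).2.2
  sep := h.2
  n0 := by
    unfold modulus
    refine Int.natAbs_ne_zero.2 (mul_ne_zero two_ne_zero (prod_ne_zero_iff.2 fun k _ => ?_))
    refine mul_ne_zero ?_ (h.1 k).2.1
    intro h0
    exact (h.1 k).1 ⟨0, by rw [h0, mul_zero]⟩
  n2 := by
    unfold modulus
    exact Int.natCast_dvd.1 (Dvd.intro _ rfl)
  hn := fun k p hp hd => by
    unfold modulus
    refine Int.natCast_dvd.1 ?_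
    exact (hd.trans (Finset.dvd_prod_of_mem (fun k => b k * (a k ^ 2 - 4 * b k))
      (mem_univ k))).mul_left _

lemma e1 (a D : ℤ) : -2 * a * D = -2 * (a * D) := by ring

lemma e2 (a b D : ℤ) : (a ^ 2 - 4 * b) * D ^ 2 = (a * D) ^ 2 - 4 * (b * D ^ 2) := by ring

section

variable {M : ℕ} {a b : Fin M → ℤ}

lemma sz_eq (h : Family a b) (s : Bool) (k : Fin M) (D : ℤ) :
    (cs h).sz s k D = (TwistSel s (a k) (b k) D).ncard := by
  unfold TwistSel
  rw [e1, e2]
  cases s
  · rfl
  · rfl

lemma rs_eq (h : Family a b) (k : Fin M) (D : ℤ) : ((cs h).cd k).rs D = size (a k) (b k) D := rfl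

lemma ta_eq (h : Family a b) (s : Bool) (k : Fin M) (D : ℤ) : (cs h).ta s k D = τ a b s k D := by
  unfold τ
  rw [e1, e2]
  cases s
  · rfl
  · rfl

lemma count_eq (n : ℕ) (D₀ : ℤ) (P : ℤ → Prop) (X : ℕ)
    {i : DecidablePred fun D => Q44.BP.SameM n D₀ D ∧ P D} : count n D₀ P X =
      ((Q44.BN.Sq X).filter fun D => Q44.BP.SameM n D₀ D ∧ P D).card := by
  unfold count
  congr 1
  ext D
  unfold Q44.BN.Sq
  rw [mem_filter, mem_filter, mem_filter, and_assoc]
  rfl

lemma count_true (n : ℕ) (D₀ : ℤ) (X : ℕ) {i : DecidablePred fun D => Q44.BP.SameM n D₀ D} :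
    count n D₀ (fun _ => True) X =
      ((Q44.BN.Sq X).filter fun D => Q44.BP.SameM n D₀ D).card :=
  (count_eq n D₀ (fun _ => True) X (i := Classical.decPred _)).trans
    (Q44.BN.cardS (fun _ => ⟨fun h => h.1, fun h => ⟨h, trivial⟩⟩) _)

lemma prop_of (h : Family a b) {D₀ : ℤ} {P : ℤ → Prop} {c : ℝ} (hp : (cs h).Prp D₀ P c) :
    Proportion (modulus a b) D₀ P c := by
  refine hp.congr fun X => ?_
  rw [count_eq, count_true]
  rfl

lemma law_eq {t : ℝ} (ht : 0 ≤ t) (r : ℕ) : Q44.BC.lam t r = law t r := Q44.BN.lam_tprod ht r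

lemma kappa_eq : Q44.BC.lam 1 0 = κ := by
  rw [Q44.BN.lam_tprod zero_le_one 0]
  unfold κ
  simp

/-- the trivial groups -/
lemma trivial_iff (a b D : ℤ) : Trivial (a * D) (b * D ^ 2) ↔ size a b D = 1 := by
  constructor
  · rintro ⟨g1, g2⟩
    have h7 : Nat.card (ShaTwo (a * D) (b * D ^ 2)) = 1 := by
      rw [Nat.card_eq_one_iff_unique]
      constructor
      · constructor
        rintro ⟨x, hx⟩ ⟨y, hy⟩
        apply Subtype.ext
        show x = y
        rw [g2 x 1 (by rw [pow_one, two_nsmul]; exact hx), g2 y 1 (by rw [pow_one, two_nsmul]; exact hy)]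
      · exact ⟨⟨0, add_zero 0⟩⟩
    unfold size
    rw [g1, h7, pow_zero, mul_one]
  · intro h7
    unfold size at h7
    have h8 := Nat.eq_one_of_mul_eq_one_right h7
    have h9 := Nat.eq_one_of_mul_eq_one_left h7
    refine ⟨?_, ?_⟩
    · by_contra hs
      have : 2 ^ 1 ≤ 2 ^ rank (a * D) (b * D ^ 2) :=
        Nat.pow_le_pow_right two_pos (Nat.one_le_iff_ne_zero.2 hs)
      omega
    · have h10 : ∀ x : Pool.Agent.W262.SH.Sha (E (a * D) (b * D ^ 2)), x + x = 0 → x = 0 := by
        intro x hx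
        obtain ⟨⟨h11⟩, -⟩ := Nat.card_eq_one_iff_unique.1 h9
        have h12 := h11 (⟨x, hx⟩ : ShaTwo (a * D) (b * D ^ 2)) ⟨0, add_zero 0⟩
        exact congrArg Subtype.val h12
      intro x n
      induction n with
      | zero =>
        intro hx
        rwa [pow_zero, one_nsmul] at hx
      | succ n ih =>
        intro hx
        apply ih
        apply h10
        rw [← two_nsmul, ← mul_nsmul', ← pow_succ']
        exact hx

lemma ta_pos (h : Family a b) {D₀ : ℤ} (hD : Squarefree D₀) (s : Bool) (k : Fin M) :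
    0 < τ a b s k D₀ := by
  rw [← ta_eq h]
  cases s
  · exact (cs h).tau'_pos hD k
  · exact (cs h).tau_pos hD k

lemma base (h : Family a b) {D₀ : ℤ} (hD : Squarefree D₀) : Base a b D₀ := by
  refine ⟨?_, fun s k => ?_⟩
  · obtain ⟨η, X₀, hη, hX⟩ := (cs h).density hD
    refine ⟨η, hη, ?_⟩
    filter_upwards [eventually_ge_atTop X₀] with X hX0
    rw [count_true]
    exact hX X hX0
  · have ht := ta_pos h hD s k
    have g1 : Q44.BC.lam (τ a b s k D₀) = law (τ a b s k D₀) := funext fun r => law_eq ht.le r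
    rw [← g1]
    exact Q44.BN.lam_hasSum ht.le

lemma joint (h : Family a b) {D₀ : ℤ} (hD : Squarefree D₀) {J : Finset (Fin M)}
    (hJ : Balanced a b D₀ J) : Law a b D₀ J := by
  intro A hA s r
  have h1 := (cs h).law_joint hD hA (fun k hk => (ta_eq h true k D₀).trans (hJ k hk true))
    (fun k hk => (ta_eq h false k D₀).trans (hJ k hk false)) s r
  have hi : (fun x y : Fin M => Classical.propDecidable (x = y)) = instDecidableEqFin M :=
    Subsingleton.elim _ _
  rw [hi] at h1
  have h2 := prop_of h h1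
  have e3 : ∏ k ∈ Jᶜ, Q44.BC.lam ((cs h).ta (s k) k D₀) (r k) =
      ∏ k ∈ univ \ J, law (τ a b (s k) k D₀) (r k) := by
    refine prod_congr ?_ fun k _ => ?_
    · ext k
      simp
    · rw [ta_eq h]
      exact law_eq (ta_pos h hD (s k) k).le (r k)
  rw [e3, kappa_eq] at h2
  have e4 : (fun D : ℤ => (∀ k ∈ J, (((cs h).cd k).rs D = 1 ↔ k ∈ A)) ∧
      ∀ k, k ∉ J → (cs h).sz (s k) k D = 2 ^ (r k + 1)) =
      fun D => (∀ k ∈ J, (Trivial (a k * D) (b k * D ^ 2) ↔ k ∈ A)) ∧
      ∀ k, k ∉ J → (TwistSel (s k) (a k) (b k) D).ncard = 2 ^ (r k + 1) := by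
    funext D
    simp only [sz_eq, rs_eq, trivial_iff]
  rw [e4] at h2
  exact h2

lemma mixed (h : Family a b) {D₀ : ℤ} (hD : Squarefree D₀) {J : Finset (Fin M)}
    (hJ : Balanced a b D₀ J) : Mixed a b D₀ J := by
  intro T
  obtain ⟨η, hη, hX⟩ := (cs h).mixed hD J (fun k hk => (ta_eq h true k D₀).trans (hJ k hk true))
    (fun k hk => (ta_eq h false k D₀).trans (hJ k hk false)) T
  refine ⟨η, hη, ?_⟩
  filter_upwards [hX] with X hX0
  rw [count_eq (i := Classical.decPred _)]
  refine hX0.trans (le_of_eq (congrArg Nat.cast (Q44.BN.cardS (fun D => ?_) _)))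
  simp only [trivial_iff]
  rfl

end

/-- the data of a special curve -/
lemma special_bt {a b : ℤ} (h : Special a b) : ∃ x : Q44.BP.Bt, a = x.β ∧ b = x.β * x.r ^ 2 := by
  obtain ⟨β, r, s, h1, h2, h3, h4, h5⟩ := h
  exact ⟨⟨β, r, s, h1, h2, h3⟩, h4, h5⟩

lemma examples : Examples := by
  refine ⟨fun β h1 h2 => ?_, fun M a b hinj hab => ?_⟩
  · obtain ⟨r, s, h3⟩ := Q44.BP.exists_dec h1 h2
    exact ⟨β * r ^ 2, β, r, s, h1, h2, h3, rfl, rfl⟩
  · choose x hx using fun k => special_bt (hab k)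
    have hF : Family a b := by
      refine ⟨fun k => ?_, fun k l hkl => ?_⟩
      · rw [(hx k).1, (hx k).2]
        exact ⟨(x k).nsq_b, (x k).hc, (x k).hs⟩
      · rw [(hx k).2, (hx l).2]
        refine (x k).sep fun h => hkl (hinj ?_)
        rw [(hx k).1, (hx l).1, h]
    refine ⟨hF, Q44.BP.neg (modulus a b).primeFactors,
      Q44.BP.neg_sq fun p hp => Nat.prime_of_mem_primeFactors hp, fun k _ s => ?_⟩
    have h2 : 2 ∈ (modulus a b).primeFactors :=
      Nat.mem_primeFactors.2 ⟨Nat.prime_two, (cs hF).n2, (cs hF).n0⟩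
    obtain ⟨k1, k2⟩ := (x k).tm_one (fun p hp => Nat.prime_of_mem_primeFactors hp) h2
    unfold τ
    rw [e1, e2, (hx k).1, (hx k).2]
    cases s
    · exact k2
    · exact k1

/-- **The joint law of the Selmer groups and of the trivial Tate-Shafarevich groups.** -/
theorem result : (∀ (M : ℕ) (a b : Fin M → ℤ), Family a b → ∀ D₀ : ℤ, Squarefree D₀ →
      Base a b D₀ ∧ ∀ J : Finset (Fin M), Balanced a b D₀ J → Law a b D₀ J ∧ Mixed a b D₀ J) ∧
    (0.288 < κ ∧ κ < 0.290) ∧ Examples := by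
  refine ⟨fun M a b h D₀ hD => ⟨base h hD, fun J hJ => ⟨joint h hD hJ, mixed h hD hJ⟩⟩, ?_, examples⟩
  rw [← kappa_eq]
  exact Q44.BN.lam_one

end Pool.Agent.Results.MP_e23604_nt.JointTwistLaw
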