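import Mathlib
import Pool.Agent.Q269.IsoFour.Four
import Pool.Agent.Q269.ShaFour.Curves

/-!
# The 2-primary part of `Ш` for the elliptic curves with a rational cyclic subgroup of order 4

All elliptic curves over `ℚ` with a rational cyclic subgroup of order 4 (that is with a cyclic
isogeny of degree 4 defined over `ℚ`), ordered by height. For almost all of them `Ш[2]` has rank
`(3 / 2 + o(1)) log log H`, and for a positive proportion the whole 2-primary part of `Ш` is finite,
an elementary abelian 2-group of this rank.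
-/

namespace Pool.Agent.Results.MP_e23604_nt.ShaOfCyclicFourIsogenies

open Filter Topology

open Pool.Agent.TH841.SH.D (Sha)

/-- the curve `y² = x³ + A x + B` over the field `K` -/
def E (K : Type) [Field K] (A B : ℤ) : WeierstrassCurve K := ⟨0, 0, 0, (A : K), (B : K)⟩

/-- There is a complex point `P` of order 4 with a rational abscissa on `y² = x³ + A x + B`. As the
elements of order 4 of the group generated by `P` are `P` and `-P`, and these are the points of the
curve with the abscissa of `P`, this says that the cyclic group of order 4 generated by `P` is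
stable under the Galois group, so that it is a rational cyclic subgroup of order 4 of the curve. -/
def HasCyclicFour (c : ℤ × ℤ) : Prop :=
  ∃ (x : ℚ) (y : ℂ) (h : (E ℂ c.1 c.2).toAffine.Nonsingular (x : ℂ) y),
    addOrderOf (WeierstrassCurve.Affine.Point.some (x : ℂ) y h) = 4

/-- The pairs `(A, B)` of integers such that `4 A³ + 27 B² ≠ 0`, there is no prime `p` with
`p⁴ ∣ A` and `p⁶ ∣ B`, the curve `y² = x³ + A x + B` has a rational cyclic subgroup of order 4, and
the height `max (4 |A|³) (27 B²)` is at most `H`. Every elliptic curve over `ℚ` with a rational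
cyclic subgroup of order 4 is isomorphic to `E ℚ A B` for exactly one pair with the first three
properties. -/
def Fam (H : ℕ) : Set (ℤ × ℤ) :=
  {c : ℤ × ℤ | 4 * c.1 ^ 3 + 27 * c.2 ^ 2 ≠ 0 ∧
    (∀ p : ℕ, p.Prime → ¬ ((p : ℤ) ^ 4 ∣ c.1 ∧ (p : ℤ) ^ 6 ∣ c.2)) ∧
    HasCyclicFour c ∧ 4 * |c.1| ^ 3 ≤ H ∧ 27 * c.2 ^ 2 ≤ H}

/-- the proportion of the curves of `S` among the curves of height at most `H` -/
noncomputable def proportion (S : Set (ℤ × ℤ)) (H : ℕ) : ℝ :=
  ((Fam H ∩ S).ncard : ℝ) / (Fam H).ncard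

/-- `|k - (3 / 2) log log H| ≤ δ log log H` -/
def Close (δ : ℝ) (H k : ℕ) : Prop :=
  |(k : ℝ) - 3 / 2 * Real.log (Real.log H)| ≤ δ * Real.log (Real.log H)

/-- `Ш(E / ℚ)[2]` is isomorphic to `(ℤ / 2) ^ k` with `|k - (3 / 2) log log H| ≤ δ log log H` -/
def TwoTorsionLaw (δ : ℝ) (H : ℕ) (c : ℤ × ℤ) : Prop := ∃ k : ℕ, Close δ H k ∧
  Nonempty (AddSubgroup.torsionBy (Sha (E ℚ c.1 c.2)) 2 ≃+ (Fin k → ZMod 2))

/-- `E(ℚ)` is finite and the 2-primary part of `Ш(E / ℚ)` is isomorphic to `(ℤ / 2) ^ k` with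
`|k - (3 / 2) log log H| ≤ δ log log H` -/
def PrimaryLaw (δ : ℝ) (H : ℕ) (c : ℤ × ℤ) : Prop := Finite (E ℚ c.1 c.2).toAffine.Point ∧
  ∃ k : ℕ, Close δ H k ∧
    Nonempty (AddCommGroup.primaryComponent (Sha (E ℚ c.1 c.2)) 2 ≃+ (Fin k → ZMod 2))

/-! ### Proofs -/

open Pool.Agent.Q269.ShaFour (V2 mem_V2 LawV Good0 LL)
open Pool.Agent.Q269.IsoFour (F4)

lemma Fam_eq (H : ℕ) : Fam H = (Pool.Agent.Q269.IsoFour.F4 H : Set (ℤ × ℤ)) := by
  ext c
  rw [Finset.mem_coe, Pool.Agent.Q269.IsoFour.mem_F4]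
  constructor
  · rintro ⟨h1, h2, h3, h4, h5⟩
    exact ⟨h1, ⟨h4, h5⟩, h2, (Pool.Agent.Q269.IsoFour.has4_iff h1).1 h3⟩
  · rintro ⟨h1, ⟨h4, h5⟩, h2, h3⟩
    exact ⟨h1, h2, (Pool.Agent.Q269.IsoFour.has4_iff h1).2 h3, h4, h5⟩

lemma tor_eq {G : Type} [AddCommGroup G] : AddSubgroup.torsionBy G 2 = V2 G := by
  ext x
  rw [mem_V2]
  change (2 : ℤ) • x = 0 ↔ x + x = 0
  rw [two_zsmul]

lemma two_of {δ : ℝ} {H : ℕ} {c : ℤ × ℤ} (h : LawV δ H (Sha (E ℚ c.1 c.2))) :
    TwoTorsionLaw δ H c := by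
  obtain ⟨k, h1, h2⟩ := h
  refine ⟨k, h1, ?_⟩
  rw [tor_eq]
  exact h2

lemma prim_of {δ : ℝ} {H : ℕ} {c : ℤ × ℤ} (h : LawV δ H (Sha (E ℚ c.1 c.2))) (h0 : Good0 c) :
    PrimaryLaw δ H c := by
  obtain ⟨k, h1, h2⟩ := h
  obtain ⟨g1, g2⟩ := h0
  refine ⟨g1, k, h1, ?_⟩
  have : AddCommGroup.primaryComponent (Sha (E ℚ c.1 c.2)) 2 = V2 (Sha (E ℚ c.1 c.2)) := by
    ext x
    constructor
    · rintro ⟨j, hj⟩
      exact g2 x j hj
    · intro hx
      refine ⟨1, ?_⟩
      rw [pow_one, two_nsmul]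
      exact hx
  rw [this]
  exact h2

/-- **Theorem.** The number of the elliptic curves over `ℚ` of height at most `H` with a rational
cyclic subgroup of order 4 is finite and tends to infinity with `H`. For every `δ > 0`, almost all of
these curves satisfy `Ш(E / ℚ)[2] ≅ (ℤ / 2) ^ k` with `|k - (3 / 2) log log H| ≤ δ log log H`. There is
`κ > 0` such that for every `δ > 0` and all large `H`, for a proportion at least `κ` of these curves
`E(ℚ)` is finite and the 2-primary part of `Ш(E / ℚ)` is finite, isomorphic to `(ℤ / 2) ^ k` with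
`|k - (3 / 2) log log H| ≤ δ log log H`. -/
theorem result :
    ((∀ H : ℕ, (Fam H).Finite) ∧ Tendsto (fun H : ℕ => (Fam H).ncard) atTop atTop) ∧
    (∀ δ : ℝ, 0 < δ → Tendsto (fun H : ℕ => proportion {c | TwoTorsionLaw δ H c} H) atTop (𝓝 1)) ∧
    ∃ κ : ℝ, 0 < κ ∧ ∀ δ : ℝ, 0 < δ → ∀ᶠ H : ℕ in atTop,
      κ ≤ proportion {c | PrimaryLaw δ H c} H := by
  classical
  have hprop : ∀ (S : Set (ℤ × ℤ)) (H : ℕ), proportion S H =
      (((F4 H).filter (fun c => c ∈ S)).card : ℝ) / (F4 H).card := by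
    intro S H
    unfold proportion
    have e1 : (Fam H ∩ S) = (((F4 H).filter (fun c => c ∈ S) : Finset (ℤ × ℤ)) : Set (ℤ × ℤ)) := by
      rw [Fam_eq]
      ext c
      simp
    rw [e1, Fam_eq, Set.ncard_coe_finset, Set.ncard_coe_finset]
  obtain ⟨D, hD, H1, hcmp⟩ := Pool.Agent.Q269.IsoFour.compare
  refine ⟨⟨fun H => by rw [Fam_eq]; exact Finset.finite_toSet _, ?_⟩, fun δ hδ => ?_, ?_⟩
  · obtain ⟨c, C, hc, -, h⟩ := Pool.Agent.Q269.IsoFour.count_F4
    have h1 : Tendsto (fun H : ℕ => c * (H : ℝ) ^ ((1 : ℝ) / 3)) atTop atTop :=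
      ((tendsto_rpow_atTop (by norm_num)).comp tendsto_natCast_atTop_atTop).const_mul_atTop hc
    have h2 : Tendsto (fun H : ℕ => ((Fam H).ncard : ℝ)) atTop atTop := by
      refine tendsto_atTop_mono' _ ?_ h1
      filter_upwards [h] with H hH
      rw [Fam_eq, Set.ncard_coe_finset]
      exact hH.1
    exact tendsto_natCast_atTop_iff.1 h2
  · rw [Metric.tendsto_atTop]
    intro ε hε
    obtain ⟨H0, hH0⟩ := Pool.Agent.Q269.ShaFour.law4 δ (ε / 2) hδ (by positivity)
    refine ⟨max H0 H1, fun H hH => ?_⟩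
    have h1 := hH0 H ((le_max_left _ _).trans hH)
    have h2 : (0 : ℝ) < (F4 H).card := by
      exact_mod_cast (hcmp H ((le_max_right _ _).trans hH)).1
    rw [hprop]
    have h3 : (F4 H).card ≤ ((F4 H).filter (fun c => c ∈ {c | TwoTorsionLaw δ H c})).card +
        ((F4 H).filter (fun c => ¬ LawV δ H (Sha (Pool.Agent.W307.RT.Sh c.1 c.2)))).card := by
      rw [← Finset.card_filter_add_card_filter_not (s := F4 H)
        (fun c => c ∈ {c | TwoTorsionLaw δ H c})]
      apply Nat.add_le_add_left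
      apply Finset.card_le_card
      intro c hc
      rw [Finset.mem_filter] at hc ⊢
      exact ⟨hc.1, fun h => hc.2 (two_of h)⟩
    have h4 : ((F4 H).card : ℝ) ≤ ((F4 H).filter (fun c => c ∈ {c | TwoTorsionLaw δ H c})).card +
        ((F4 H).filter (fun c => ¬ LawV δ H (Sha (Pool.Agent.W307.RT.Sh c.1 c.2)))).card := by
      exact_mod_cast h3
    have h5 : (((F4 H).filter (fun c => c ∈ {c | TwoTorsionLaw δ H c})).card : ℝ) ≤
        (F4 H).card := by
      exact_mod_cast Finset.card_filter_le _ _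
    rw [Real.dist_eq, abs_lt]
    constructor
    · have h6 : 1 - ε / 2 ≤ (((F4 H).filter (fun c => c ∈ {c | TwoTorsionLaw δ H c})).card : ℝ) /
          (F4 H).card := by
        rw [le_div_iff₀ h2]
        linarith
      linarith
    · have h6 : (((F4 H).filter (fun c => c ∈ {c | TwoTorsionLaw δ H c})).card : ℝ) /
          (F4 H).card ≤ 1 := by
        rw [div_le_one h2]
        exact h5
      linarith
  · obtain ⟨κ, hκ, H2, hH2⟩ := Pool.Agent.Q269.ShaFour.pos4
    refine ⟨κ / 2, by positivity, fun δ hδ => ?_⟩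
    obtain ⟨H0, hH0⟩ := Pool.Agent.Q269.ShaFour.law4 δ (κ / 2) hδ (by positivity)
    filter_upwards [eventually_ge_atTop (max H0 (max H1 H2))] with H hH
    have h1 := hH0 H ((le_max_left _ _).trans hH)
    have h2 : (0 : ℝ) < (F4 H).card := by
      exact_mod_cast (hcmp H (((le_max_left _ _).trans (le_max_right _ _)).trans hH)).1
    have h3 := hH2 H (((le_max_right _ _).trans (le_max_right _ _)).trans hH)
    rw [hprop, le_div_iff₀ h2]
    have h4 : ((F4 H).filter Good0).card ≤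
        ((F4 H).filter (fun c => c ∈ {c | PrimaryLaw δ H c})).card +
        ((F4 H).filter (fun c => ¬ LawV δ H (Sha (Pool.Agent.W307.RT.Sh c.1 c.2)))).card := by
      refine le_trans (Finset.card_le_card ?_) (Finset.card_union_le _ _)
      intro c hc
      rw [Finset.mem_filter] at hc
      rw [Finset.mem_union, Finset.mem_filter, Finset.mem_filter]
      by_cases h : LawV δ H (Sha (Pool.Agent.W307.RT.Sh c.1 c.2))
      · exact Or.inl ⟨hc.1, prim_of h hc.2⟩
      · exact Or.inr ⟨hc.1, h⟩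
    have h5 : (((F4 H).filter Good0).card : ℝ) ≤
        ((F4 H).filter (fun c => c ∈ {c | PrimaryLaw δ H c})).card +
        ((F4 H).filter (fun c => ¬ LawV δ H (Sha (Pool.Agent.W307.RT.Sh c.1 c.2)))).card := by
      exact_mod_cast h4
    linarith

end Pool.Agent.Results.MP_e23604_nt.ShaOfCyclicFourIsogenies
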